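import Mathlib

/-! # Difference sums of even characters: polarisation, weights, products -/

set_option autoImplicit false

namespace Run7.h605.PG

open Finset

section polar

variable {p : ℕ} (χ : MulChar (ZMod p) ℂ)

/-- the double sum over differences -/
noncomputable def q (X Y : Finset (ZMod p)) : ℂ := ∑ a ∈ X, ∑ b ∈ Y, χ (a - b)

lemma q_swap (X Y : Finset (ZMod p)) : q χ Y X = χ (-1) * q χ X Y := by
  unfold q
  rw [sum_comm, mul_sum]
  refine sum_congr rfl fun a _ => ?_
  rw [mul_sum]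
  refine sum_congr rfl fun b _ => ?_
  rw [← map_mul]
  congr 1
  ring

lemma q_comm (hχ : χ (-1) = 1) (X Y : Finset (ZMod p)) : q χ Y X = q χ X Y := by
  rw [q_swap, hχ, one_mul]

lemma q_odd (hχ : χ (-1) = -1) (X : Finset (ZMod p)) : q χ X X = 0 := by
  have h := q_swap χ X X
  rw [hχ] at h
  have h2 : (2 : ℂ) * q χ X X = 0 := by linear_combination h
  rcases mul_eq_zero.1 h2 with h3 | h3
  · norm_num at h3
  · exact h3

lemma q_union_left {X X' : Finset (ZMod p)} (h : Disjoint X X') (Y : Finset (ZMod p)) :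
    q χ (X ∪ X') Y = q χ X Y + q χ X' Y := by
  unfold q
  rw [sum_union h]

lemma q_union_right {Y Y' : Finset (ZMod p)} (h : Disjoint Y Y') (X : Finset (ZMod p)) :
    q χ X (Y ∪ Y') = q χ X Y + q χ X Y' := by
  unfold q
  rw [← sum_add_distrib]
  exact sum_congr rfl fun a _ => sum_union h

lemma polar (hχ : χ (-1) = 1) {X Y : Finset (ZMod p)} (h : Disjoint X Y) :
    2 * q χ X Y = q χ (X ∪ Y) (X ∪ Y) - q χ X X - q χ Y Y := by
  rw [q_union_left χ h, q_union_right χ h, q_union_right χ h, q_comm χ hχ X Y]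
  ring

variable {χ}

lemma disj_bound (hχ : χ (-1) = 1) {M : ℝ} {m : ℕ}
    (hM : ∀ Z : Finset (ZMod p), Z.card ≤ 2 * m → ‖q χ Z Z‖ ≤ M) {X Y : Finset (ZMod p)}
    (h : Disjoint X Y) (hX : X.card ≤ m) (hY : Y.card ≤ m) : ‖q χ X Y‖ ≤ 3 / 2 * M := by
  have h1 := polar χ hχ h
  have h2 : ‖(2 : ℂ) * q χ X Y‖ = 2 * ‖q χ X Y‖ := by rw [norm_mul]; norm_num
  have h3 : ‖q χ (X ∪ Y) (X ∪ Y) - q χ X X - q χ Y Y‖ ≤ M + M + M := by
    refine (norm_sub_le _ _).trans (add_le_add ((norm_sub_le _ _).trans (add_le_add ?_ ?_)) ?_)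
    · refine hM _ ((card_union_le _ _).trans (by omega))
    · exact hM _ (by omega)
    · exact hM _ (by omega)
  rw [← h1, h2] at h3
  linarith

lemma bound (hχ : χ (-1) = 1) {M : ℝ} {m : ℕ}
    (hM : ∀ Z : Finset (ZMod p), Z.card ≤ 2 * m → ‖q χ Z Z‖ ≤ M) {X Y : Finset (ZMod p)}
    (hX : X.card ≤ m) (hY : Y.card ≤ m) : ‖q χ X Y‖ ≤ 6 * M := by
  classical
  have hM0 : 0 ≤ M := (norm_nonneg _).trans (hM ∅ (by simp))
  have eX : X = (X \ Y) ∪ (X ∩ Y) := (sdiff_union_inter X Y).symm
  have eY : Y = (Y \ X) ∪ (X ∩ Y) := by rw [inter_comm]; exact (sdiff_union_inter Y X).symm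
  have d1 : Disjoint (X \ Y) (X ∩ Y) := disjoint_sdiff_inter X Y
  have d2 : Disjoint (Y \ X) (X ∩ Y) := by rw [inter_comm]; exact disjoint_sdiff_inter Y X
  have d3 : Disjoint (X \ Y) (Y \ X) := by
    rw [disjoint_left]
    intro x
    simp only [mem_sdiff]
    tauto
  have c1 : (X \ Y).card ≤ m := (card_le_card sdiff_subset).trans hX
  have c2 : (Y \ X).card ≤ m := (card_le_card sdiff_subset).trans hY
  have c3 : (X ∩ Y).card ≤ m := (card_le_card inter_subset_left).trans hX
  have e : q χ X Y = q χ (X \ Y) (Y \ X) + q χ (X \ Y) (X ∩ Y) +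
      (q χ (X ∩ Y) (Y \ X) + q χ (X ∩ Y) (X ∩ Y)) := by
    conv_lhs => rw [eX]
    rw [q_union_left χ d1]
    conv_lhs => rw [eY]
    rw [q_union_right χ, q_union_right χ]
    · congr 1
      · congr 1
        · congr 1
          ext x
          simp only [mem_sdiff, mem_union, mem_inter]
          tauto
        · congr 1 <;>
          · ext x
            simp only [mem_sdiff, mem_union, mem_inter]
            tauto
      · congr 1 <;>
        · congr 1 <;>
          · ext x
            simp only [mem_sdiff, mem_union, mem_inter]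
            tauto
    all_goals
      rw [disjoint_left]
      intro x
      simp only [mem_sdiff, mem_union, mem_inter]
      tauto
  rw [e]
  have b1 := disj_bound hχ hM d3 c1 c2
  have b2 := disj_bound hχ hM d1 c1 c3
  have b3 := disj_bound hχ hM d2.symm c3 c2
  have b4 := hM (X ∩ Y) (by omega)
  calc _ ≤ ‖q χ (X \ Y) (Y \ X)‖ + ‖q χ (X \ Y) (X ∩ Y)‖ +
        (‖q χ (X ∩ Y) (Y \ X)‖ + ‖q χ (X ∩ Y) (X ∩ Y)‖) :=
        (norm_add_le _ _).trans (add_le_add (norm_add_le _ _) (norm_add_le _ _))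
    _ ≤ 6 * M := by linarith

lemma bound_long (hχ : χ (-1) = 1) {M : ℝ} {m : ℕ} (hm : 1 ≤ m)
    (hM : ∀ Z : Finset (ZMod p), Z.card ≤ 2 * m → ‖q χ Z Z‖ ≤ M) {X : Finset (ZMod p)}
    (hX : X.card ≤ m) : ∀ (n : ℕ) (Y : Finset (ZMod p)), Y.card ≤ n →
      ‖q χ X Y‖ ≤ ((Y.card : ℝ) / m + 1) * (6 * M) := by
  classical
  have hM0 : 0 ≤ M := (norm_nonneg _).trans (hM ∅ (by simp))
  have hmr : (1 : ℝ) ≤ m := by exact_mod_cast hm
  intro n
  induction n with
  | zero =>
    intro Y hY
    have : ‖q χ X Y‖ ≤ 6 * M := bound hχ hM hX (by omega)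
    have h1 : 0 ≤ (Y.card : ℝ) / m := by positivity
    nlinarith
  | succ n ih =>
    intro Y hY
    rcases le_total Y.card m with h | h
    · have : ‖q χ X Y‖ ≤ 6 * M := bound hχ hM hX h
      have h1 : 0 ≤ (Y.card : ℝ) / m := by positivity
      nlinarith
    · obtain ⟨Y', hY', hc⟩ := exists_subset_card_eq h
      have e : Y = Y' ∪ (Y \ Y') := (union_sdiff_of_subset hY').symm
      have hd : Disjoint Y' (Y \ Y') := disjoint_sdiff
      have hc2 : (Y \ Y').card = Y.card - m := by rw [card_sdiff_of_subset hY', hc]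
      have h1 := ih (Y \ Y') (by omega)
      have h2 : ‖q χ X Y'‖ ≤ 6 * M := bound hχ hM hX hc.le
      rw [e, q_union_right χ hd, ← e]
      have h3 : (((Y \ Y').card : ℕ) : ℝ) = (Y.card : ℝ) - m := by
        rw [hc2, Nat.cast_sub h]
      rw [h3] at h1
      have h4 : ((Y.card : ℝ) - m) / m + 1 = (Y.card : ℝ) / m := by
        field_simp
        ring
      rw [h4] at h1
      calc ‖q χ X Y' + q χ X (Y \ Y')‖ ≤ 6 * M + (Y.card : ℝ) / m * (6 * M) :=
            (norm_add_le _ _).trans (add_le_add h2 h1)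
        _ = ((Y.card : ℝ) / m + 1) * (6 * M) := by ring

end polar

section weights

lemma abs_sum_le {ι : Type} [DecidableEq ι] (s : Finset ι) (c : ι → ℂ) {W : ℝ}
    (h : ∀ t ⊆ s, ‖∑ i ∈ t, c i‖ ≤ W) : ∑ i ∈ s, ‖c i‖ ≤ 4 * W := by
  have real : ∀ f : ι → ℝ, (∀ t ⊆ s, |∑ i ∈ t, f i| ≤ W) → ∑ i ∈ s, |f i| ≤ 2 * W := by
    intro f hf
    have e : ∑ i ∈ s, |f i| = ∑ i ∈ s.filter (fun i => 0 ≤ f i), f i +
        -∑ i ∈ s.filter (fun i => ¬ 0 ≤ f i), f i := by
      rw [← sum_filter_add_sum_filter_not s (fun i => 0 ≤ f i), ← sum_neg_distrib]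
      congr 1
      · exact sum_congr rfl fun i hi => abs_of_nonneg (mem_filter.1 hi).2
      · exact sum_congr rfl fun i hi => abs_of_neg (not_le.1 (mem_filter.1 hi).2)
    rw [e]
    have h1 := (le_abs_self _).trans (hf _ (filter_subset (fun i => 0 ≤ f i) s))
    have h2 := (neg_le_abs _).trans (hf _ (filter_subset (fun i => ¬ 0 ≤ f i) s))
    linarith
  have hre := real (fun i => (c i).re) fun t ht => by
    have h1 := (Complex.abs_re_le_norm _).trans (h t ht)
    rwa [Complex.re_sum] at h1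
  have him := real (fun i => (c i).im) fun t ht => by
    have h1 := (Complex.abs_im_le_norm _).trans (h t ht)
    rwa [Complex.im_sum] at h1
  calc ∑ i ∈ s, ‖c i‖ ≤ ∑ i ∈ s, (|(c i).re| + |(c i).im|) :=
        sum_le_sum fun i _ => Complex.norm_le_abs_re_add_abs_im _
    _ = ∑ i ∈ s, |(c i).re| + ∑ i ∈ s, |(c i).im| := sum_add_distrib
    _ ≤ 4 * W := by linarith

lemma weights {ι κ : Type} [DecidableEq ι] [DecidableEq κ] (A : Finset ι) (B : Finset κ)
    (K : ι → κ → ℂ) {W : ℝ} (h : ∀ X ⊆ A, ∀ Y ⊆ B, ‖∑ a ∈ X, ∑ b ∈ Y, K a b‖ ≤ W)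
    (β : κ → ℂ) (hβ : ∀ b, ‖β b‖ ≤ 1) : ∑ a ∈ A, ‖∑ b ∈ B, β b * K a b‖ ≤ 16 * W := by
  have h1 : ∀ X ⊆ A, ‖∑ a ∈ X, ∑ b ∈ B, β b * K a b‖ ≤ 4 * W := by
    intro X hX
    rw [sum_comm]
    calc ‖∑ b ∈ B, ∑ a ∈ X, β b * K a b‖ ≤ ∑ b ∈ B, ‖∑ a ∈ X, β b * K a b‖ := norm_sum_le _ _
      _ ≤ ∑ b ∈ B, ‖∑ a ∈ X, K a b‖ := by
          refine sum_le_sum fun b _ => ?_
          rw [← mul_sum, norm_mul]
          exact mul_le_of_le_one_left (norm_nonneg _) (hβ b)
      _ ≤ 4 * W := abs_sum_le B _ fun Y hY => by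
          rw [sum_comm]
          exact h X hX Y hY
  have h2 := abs_sum_le A (fun a => ∑ b ∈ B, β b * K a b) h1
  linarith

lemma weights2 {ι κ : Type} [DecidableEq ι] [DecidableEq κ] (A : Finset ι) (B : Finset κ)
    (K : ι → κ → ℂ) {W : ℝ} (h : ∀ X ⊆ A, ∀ Y ⊆ B, ‖∑ a ∈ X, ∑ b ∈ Y, K a b‖ ≤ W)
    (α : ι → ℂ) (β : κ → ℂ) (hα : ∀ a, ‖α a‖ ≤ 1) (hβ : ∀ b, ‖β b‖ ≤ 1) :
    ‖∑ a ∈ A, ∑ b ∈ B, α a * β b * K a b‖ ≤ 16 * W := by
  calc ‖∑ a ∈ A, ∑ b ∈ B, α a * β b * K a b‖ ≤ ∑ a ∈ A, ‖∑ b ∈ B, α a * β b * K a b‖ :=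
        norm_sum_le _ _
    _ ≤ ∑ a ∈ A, ‖∑ b ∈ B, β b * K a b‖ := by
        refine sum_le_sum fun a _ => ?_
        have e : ∑ b ∈ B, α a * β b * K a b = α a * ∑ b ∈ B, β b * K a b := by
          rw [mul_sum]
          exact sum_congr rfl fun b _ => by ring
        rw [e, norm_mul]
        exact mul_le_of_le_one_left (norm_nonneg _) (hα a)
    _ ≤ 16 * W := weights A B K h β hβ

end weights

section products

variable {R : Type}

/-- splitting off two coordinates -/
lemma split_sum [Zero R] {k : ℕ} (A : Fin k → Finset R) {i j : Fin k} (hij : i ≠ j)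
    (H : (Fin k → R) → ℂ) :
    ∑ x ∈ Fintype.piFinset A, H x =
      ∑ z ∈ Fintype.piFinset (Function.update (Function.update A i {0}) j {0}),
        ∑ a ∈ A i, ∑ b ∈ A j, H (Function.update (Function.update z i a) j b) := by
  have e : ∀ z : Fin k → R, ∑ a ∈ A i, ∑ b ∈ A j,
      H (Function.update (Function.update z i a) j b) =
      ∑ w ∈ A i ×ˢ A j, H (Function.update (Function.update z i w.1) j w.2) := by
    intro z
    rw [sum_product]
  simp_rw [e]
  rw [← sum_product']
  refine sum_nbij' (fun x => (Function.update (Function.update x i 0) j 0, (x i, x j)))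
    (fun w => Function.update (Function.update w.1 i w.2.1) j w.2.2) ?_ ?_ ?_ ?_ ?_
  · intro x hx
    rw [Fintype.mem_piFinset] at hx
    refine mem_product.2 ⟨?_, mem_product.2 ⟨hx i, hx j⟩⟩
    rw [Fintype.mem_piFinset]
    intro l
    rcases eq_or_ne l j with rfl | hlj
    · simp
    · rcases eq_or_ne l i with rfl | hli
      · simp [hlj]
      · simp [hlj, hli, hx l]
  · rintro ⟨z, a, b⟩ hw
    rw [mem_product, mem_product] at hw
    obtain ⟨hz, ha, hb⟩ := hw
    rw [Fintype.mem_piFinset] at hz ⊢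
    intro l
    rcases eq_or_ne l j with rfl | hlj
    · simpa using hb
    · rcases eq_or_ne l i with rfl | hli
      · simpa [hlj] using ha
      · have := hz l
        simpa [hlj, hli] using this
  · intro x _
    funext l
    rcases eq_or_ne l j with rfl | hlj
    · simp
    · rcases eq_or_ne l i with rfl | hli
      · simp [hlj]
      · simp [hlj, hli]
  · rintro ⟨z, a, b⟩ hw
    rw [mem_product, mem_product] at hw
    obtain ⟨hz, ha, hb⟩ := hw
    rw [Fintype.mem_piFinset] at hz
    have hzi : z i = 0 := by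
      have := hz i
      simpa [hij] using this
    have hzj : z j = 0 := by
      have := hz j
      simpa using this
    refine Prod.ext ?_ (Prod.ext ?_ ?_)
    · funext l
      rcases eq_or_ne l j with rfl | hlj
      · simp [hzj]
      · rcases eq_or_ne l i with rfl | hli
        · simp [hlj, hzi]
        · simp [hlj, hli]
    · simp [hij]
    · simp
  · intro x _
    congr 1
    funext l
    rcases eq_or_ne l j with rfl | hlj
    · simp
    · rcases eq_or_ne l i with rfl | hli
      · simp [hlj]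
      · simp [hlj, hli]

lemma card_rest [Zero R] {k : ℕ} (A : Fin k → Finset R) {i j : Fin k} (hij : i ≠ j) :
    ((Fintype.piFinset (Function.update (Function.update A i {0}) j {0})).card : ℝ) *
      ((A i).card * (A j).card) = ∏ l, ((A l).card : ℝ) := by
  have h := split_sum A hij (fun _ => (1 : ℂ))
  simp only [sum_const, nsmul_eq_mul, mul_one] at h
  have h2 : ((Fintype.piFinset A).card : ℂ) = ((∏ l, (A l).card : ℕ) : ℂ) := by
    rw [Fintype.card_piFinset]
  rw [h2] at h
  have h3 : (∏ l, (A l).card : ℕ) =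
      (Fintype.piFinset (Function.update (Function.update A i {0}) j {0})).card *
        ((A i).card * (A j).card) := by
    exact_mod_cast h
  rw [← Nat.cast_prod, h3]
  push_cast
  ring

/-- products of a kernel in two coordinates and of two functions, each of which does not depend on
one of these coordinates -/
theorem multi [Zero R] {k : ℕ} (A : Fin k → Finset R) {i j : Fin k} (hij : i ≠ j)
    (K : R → R → ℂ) {w : ℝ}
    (h : ∀ X ⊆ A i, ∀ Y ⊆ A j, ‖∑ a ∈ X, ∑ b ∈ Y, K a b‖ ≤ w * ((A i).card * (A j).card))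
    (f g : (Fin k → R) → ℂ) (hf : ∀ x, ‖f x‖ ≤ 1) (hg : ∀ x, ‖g x‖ ≤ 1)
    (hfj : ∀ x b, f (Function.update x j b) = f x) (hgi : ∀ x a, g (Function.update x i a) = g x) :
    ‖∑ x ∈ Fintype.piFinset A, f x * g x * K (x i) (x j)‖ ≤ 16 * w * ∏ l, ((A l).card : ℝ) := by
  classical
  rw [split_sum A hij]
  calc _ ≤ ∑ z ∈ Fintype.piFinset (Function.update (Function.update A i {0}) j {0}),
        (16 * (w * ((A i).card * (A j).card)) : ℝ) := by
        refine (norm_sum_le _ _).trans (sum_le_sum fun z _ => ?_)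
        have e : ∑ a ∈ A i, ∑ b ∈ A j,
            f (Function.update (Function.update z i a) j b) *
              g (Function.update (Function.update z i a) j b) *
              K (Function.update (Function.update z i a) j b i)
                (Function.update (Function.update z i a) j b j) =
            ∑ a ∈ A i, ∑ b ∈ A j, f (Function.update z i a) * g (Function.update z j b) *
              K a b := by
          refine sum_congr rfl fun a _ => sum_congr rfl fun b _ => ?_
          rw [hfj]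
          have h1 : Function.update (Function.update z i a) j b =
              Function.update (Function.update z j b) i a := Function.update_comm hij a b z
          rw [show g (Function.update (Function.update z i a) j b) = g (Function.update z j b) by
            rw [h1, hgi]]
          congr 1
          rw [Function.update_self, Function.update_of_ne hij, Function.update_self]
        rw [e]
        exact weights2 (A i) (A j) K h (fun a => f (Function.update z i a))
          (fun b => g (Function.update z j b)) (fun a => hf _) (fun b => hg _)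
    _ = 16 * w * ∏ l, ((A l).card : ℝ) := by
        rw [sum_const, nsmul_eq_mul, ← card_rest A hij]
        ring

end products

end Run7.h605.PG
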