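import Mathlib
import Pool.Agent.N793.PG.Asym
import Pool.Agent.N793.GP.Bh
import Pool.Agent.Run7.h605.PG.Polar

/-! # Equivalent forms of the power saving over difference sets -/

set_option autoImplicit false

namespace Run7.h605.PG

open Finset
open Pool.Agent.N793.PG (Saves OneSize saves_below_iff)
open Pool.Agent.N793.GP (SavesB exists_savesB)

/-- even characters -/
def EvenChar (p : ℕ) (χ : MulChar (ZMod p) ℂ) : Prop := χ (-1) = 1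

/-- one set, even characters -/
def OneSet (ε τ : ℝ) : Prop :=
  ∃ p₀ : ℕ, ∀ p : ℕ, p.Prime → p₀ < p → ∀ A : Finset (ZMod p), (p : ℝ) ^ ε < (A.card : ℝ) →
    ∀ χ : MulChar (ZMod p) ℂ, χ ≠ 1 → χ (-1) = 1 →
      ‖∑ a ∈ A, ∑ b ∈ A, χ (a - b)‖ ≤ (p : ℝ) ^ (-τ) * (A.card : ℝ) ^ 2

/-- all subsets of two sets, even characters -/
def Cut (ε δ : ℝ) : Prop :=
  ∃ p₀ : ℕ, ∀ p : ℕ, p.Prime → p₀ < p → ∀ A B : Finset (ZMod p),
    (p : ℝ) ^ ε < (A.card : ℝ) → (p : ℝ) ^ ε < (B.card : ℝ) →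
    ∀ χ : MulChar (ZMod p) ℂ, χ ≠ 1 → χ (-1) = 1 → ∀ X ⊆ A, ∀ Y ⊆ B,
      ‖∑ a ∈ X, ∑ b ∈ Y, χ (a - b)‖ ≤ (p : ℝ) ^ (-δ) / 16 * ((A.card : ℝ) * (B.card : ℝ))

lemma norm_char_le {p : ℕ} [NeZero p] (χ : MulChar (ZMod p) ℂ) (a : ZMod p) : ‖χ a‖ ≤ 1 :=
  DirichletCharacter.norm_le_one (χ : DirichletCharacter ℂ p) a

lemma q_trivial {p : ℕ} [NeZero p] (χ : MulChar (ZMod p) ℂ) (X Y : Finset (ZMod p)) :
    ‖q χ X Y‖ ≤ (X.card : ℝ) * Y.card := by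
  unfold q
  calc ‖∑ a ∈ X, ∑ b ∈ Y, χ (a - b)‖ ≤ ∑ a ∈ X, ∑ b ∈ Y, (1 : ℝ) :=
        (norm_sum_le _ _).trans (sum_le_sum fun a _ => (norm_sum_le _ _).trans
          (sum_le_sum fun b _ => norm_char_le χ _))
    _ = (X.card : ℝ) * Y.card := by simp

lemma exists_large (C : ℝ) {η : ℝ} (hη : 0 < η) : ∃ p₁ : ℕ, ∀ p : ℕ, p₁ < p → C ≤ (p : ℝ) ^ η := by
  have h := (tendsto_rpow_atTop hη).comp (tendsto_natCast_atTop_atTop (R := ℝ))
  obtain ⟨p₁, hp₁⟩ := (h.eventually_ge_atTop C).exists_forall_of_atTop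
  exact ⟨p₁, fun p hp => hp₁ p hp.le⟩

theorem cut_of_oneSet {ε ε' τ δ : ℝ} (hε : 0 ≤ ε) (hδ : δ < min τ (2 * (ε' - ε))) (hεε : ε < ε')
    (H : OneSet ε τ) : Cut ε' δ := by
  obtain ⟨p₀, H⟩ := H
  set τ' := min τ (2 * (ε' - ε)) with hτ'
  obtain ⟨p₁, hp₁⟩ := exists_large 768 (sub_pos.2 hδ)
  refine ⟨p₀ + p₁, fun p hp hlt => ?_⟩
  have : NeZero p := ⟨hp.ne_zero⟩
  have hp1 : (1 : ℝ) ≤ p := by exact_mod_cast hp.one_le
  have hp0 : (0 : ℝ) < p := by linarith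
  have hbig : 768 * (p : ℝ) ^ (-τ') ≤ (p : ℝ) ^ (-δ) := by
    have h1 := hp₁ p (by omega)
    have h2 : (p : ℝ) ^ (-δ) = (p : ℝ) ^ (τ' - δ) * (p : ℝ) ^ (-τ') := by
      rw [← Real.rpow_add hp0]
      congr 1
      ring
    rw [h2]
    exact mul_le_mul_of_nonneg_right h1 (Real.rpow_nonneg hp0.le _)
  -- the case `|A| ≤ |B|`
  have key : ∀ A B : Finset (ZMod p), (p : ℝ) ^ ε' < (A.card : ℝ) → A.card ≤ B.card →
      ∀ χ : MulChar (ZMod p) ℂ, χ ≠ 1 → χ (-1) = 1 → ∀ X ⊆ A, ∀ Y ⊆ B,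
        ‖q χ X Y‖ ≤ (p : ℝ) ^ (-δ) / 16 * ((A.card : ℝ) * (B.card : ℝ)) := by
    intro A B hA hAB χ hχ hχ1 X hX Y hY
    set m := A.card with hm
    have hmr : 0 < (m : ℝ) := lt_of_le_of_lt (Real.rpow_nonneg hp0.le _) hA
    have hm1 : 1 ≤ m := by exact_mod_cast hmr
    have hM : ∀ Z : Finset (ZMod p), Z.card ≤ 2 * m →
        ‖q χ Z Z‖ ≤ 4 * (m : ℝ) ^ 2 * (p : ℝ) ^ (-τ') := by
      intro Z hZ
      have hZr : (Z.card : ℝ) ≤ 2 * m := by exact_mod_cast hZ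
      have hZ0 : (0 : ℝ) ≤ Z.card := Nat.cast_nonneg _
      have hτ0 : (0 : ℝ) ≤ (p : ℝ) ^ (-τ') := Real.rpow_nonneg hp0.le _
      rcases le_or_gt (Z.card : ℝ) ((p : ℝ) ^ ε) with h | h
      · have h1 := q_trivial χ Z Z
        have h2 : (Z.card : ℝ) * Z.card ≤ (p : ℝ) ^ ε * (p : ℝ) ^ ε :=
          mul_le_mul h h hZ0 (Real.rpow_nonneg hp0.le _)
        have h3 : (p : ℝ) ^ ε * (p : ℝ) ^ ε =
            (p : ℝ) ^ (-(2 * (ε' - ε))) * ((p : ℝ) ^ ε' * (p : ℝ) ^ ε') := by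
          rw [← Real.rpow_add hp0, ← Real.rpow_add hp0, ← Real.rpow_add hp0]
          congr 1
          ring
        have h4 : (p : ℝ) ^ (-(2 * (ε' - ε))) ≤ (p : ℝ) ^ (-τ') :=
          Real.rpow_le_rpow_of_exponent_le hp1 (by
            have := min_le_right τ (2 * (ε' - ε))
            linarith)
        have h5 : (p : ℝ) ^ ε' * (p : ℝ) ^ ε' ≤ m * m :=
          mul_le_mul hA.le hA.le (Real.rpow_nonneg hp0.le _) hmr.le
        have h6 : (p : ℝ) ^ (-(2 * (ε' - ε))) * ((p : ℝ) ^ ε' * (p : ℝ) ^ ε') ≤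
            (p : ℝ) ^ (-τ') * (m * m) :=
          mul_le_mul h4 h5 (by positivity) hτ0
        have h7 : 0 ≤ (p : ℝ) ^ (-τ') * (m * m) := by positivity
        nlinarith
      · have h1 := H p hp (by omega) Z h χ hχ hχ1
        have h2 : (p : ℝ) ^ (-τ) ≤ (p : ℝ) ^ (-τ') :=
          Real.rpow_le_rpow_of_exponent_le hp1 (by
            have := min_le_left τ (2 * (ε' - ε))
            linarith)
        have h3 : (Z.card : ℝ) ^ 2 ≤ 4 * (m : ℝ) ^ 2 := by nlinarith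
        calc ‖q χ Z Z‖ ≤ (p : ℝ) ^ (-τ) * (Z.card : ℝ) ^ 2 := h1
          _ ≤ (p : ℝ) ^ (-τ') * (4 * (m : ℝ) ^ 2) := mul_le_mul h2 h3 (by positivity) hτ0
          _ = _ := by ring
    have hX' : X.card ≤ m := card_le_card hX
    have hY' : (Y.card : ℝ) ≤ B.card := by exact_mod_cast card_le_card hY
    have hAB' : (m : ℝ) ≤ B.card := by exact_mod_cast hAB
    have h1 := bound_long hχ1 hm1 hM hX' Y.card Y le_rfl
    have h2 : (Y.card : ℝ) / m + 1 ≤ 2 * B.card / m := by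
      rw [← sub_nonneg]
      have : 2 * (B.card : ℝ) / m - ((Y.card : ℝ) / m + 1) = (2 * B.card - Y.card - m) / m := by
        field_simp
        ring
      rw [this]
      exact div_nonneg (by linarith) hmr.le
    calc ‖q χ X Y‖ ≤ ((Y.card : ℝ) / m + 1) * (6 * (4 * (m : ℝ) ^ 2 * (p : ℝ) ^ (-τ'))) := h1
      _ ≤ (2 * B.card / m) * (6 * (4 * (m : ℝ) ^ 2 * (p : ℝ) ^ (-τ'))) :=
          mul_le_mul_of_nonneg_right h2 (by positivity)
      _ = 768 * (p : ℝ) ^ (-τ') / 16 * (m * B.card) := by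
          field_simp
          ring
      _ ≤ (p : ℝ) ^ (-δ) / 16 * (m * B.card) := by gcongr
  intro A B hA hB χ hχ hχ1 X hX Y hY
  rcases le_total A.card B.card with h | h
  · exact key A B hA h χ hχ hχ1 X hX Y hY
  · have h1 := key B A hB h χ hχ hχ1 Y hY X hX
    rw [q_comm χ hχ1 X Y] at h1
    calc ‖q χ X Y‖ ≤ (p : ℝ) ^ (-δ) / 16 * ((B.card : ℝ) * (A.card : ℝ)) := h1
      _ = _ := by ring

lemma sum_neg_image {p : ℕ} (χ : MulChar (ZMod p) ℂ) (A B : Finset (ZMod p)) :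
    ∑ a ∈ A, ∑ b ∈ B.image Neg.neg, χ (a - b) = ∑ a ∈ A, ∑ b ∈ B, χ (a + b) := by
  refine sum_congr rfl fun a _ => ?_
  rw [sum_image fun x _ y _ h => neg_injective h]
  refine sum_congr rfl fun b _ => ?_
  rw [sub_neg_eq_add]

lemma sum_neg_image' {p : ℕ} (χ : MulChar (ZMod p) ℂ) (A B : Finset (ZMod p)) :
    ∑ a ∈ A, ∑ b ∈ B.image Neg.neg, χ (a + b) = ∑ a ∈ A, ∑ b ∈ B, χ (a - b) := by
  refine sum_congr rfl fun a _ => ?_
  rw [sum_image fun x _ y _ h => neg_injective h]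
  refine sum_congr rfl fun b _ => ?_
  rw [sub_eq_add_neg]

lemma card_neg_image {p : ℕ} (B : Finset (ZMod p)) : (B.image Neg.neg).card = B.card :=
  card_image_of_injective _ neg_injective

theorem saves_of_cut {ε δ : ℝ} (H : Cut ε δ) : Saves EvenChar ε ε δ := by
  obtain ⟨p₀, H⟩ := H
  refine ⟨p₀, fun p hp hlt A B hA hB χ hχ hχ1 => ?_⟩
  have h1 := H p hp hlt A (B.image Neg.neg) hA (by rwa [card_neg_image]) χ hχ hχ1 A subset_rfl _
    subset_rfl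
  rw [sum_neg_image, card_neg_image] at h1
  refine h1.trans ?_
  have h2 : 0 ≤ (p : ℝ) ^ (-δ) * (A.card : ℝ) * (B.card : ℝ) := by positivity
  calc (p : ℝ) ^ (-δ) / 16 * ((A.card : ℝ) * (B.card : ℝ)) =
        (p : ℝ) ^ (-δ) * (A.card : ℝ) * (B.card : ℝ) / 16 := by ring
    _ ≤ _ := by linarith

theorem oneSet_of_saves {ε δ : ℝ} (H : Saves EvenChar ε ε δ) : OneSet ε δ := by
  obtain ⟨p₀, H⟩ := H
  refine ⟨p₀, fun p hp hlt A hA χ hχ hχ1 => ?_⟩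
  have h1 := H p hp hlt A (A.image Neg.neg) hA (by rwa [card_neg_image]) χ hχ hχ1
  rw [sum_neg_image', card_neg_image] at h1
  exact h1.trans (le_of_eq (by ring))

/-- the statement of the page -/
def Q1 : Prop :=
  ∀ δ : ℝ, 0 < δ → ∃ τ : ℝ, 0 < τ ∧ ∃ P : ℕ, ∀ p : ℕ, p.Prime → P ≤ p →
    ∀ A : Finset (ZMod p), (p : ℝ) ^ δ < (A.card : ℝ) →
      ∀ χ : DirichletCharacter ℂ p, χ ≠ 1 →
        ‖∑ a ∈ A, ∑ b ∈ A, χ (a - b)‖ < (A.card : ℝ) ^ (2 - τ)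

theorem oneSet_of_q1 (h : Q1) : ∀ ε : ℝ, 0 < ε → ∃ τ : ℝ, 0 < τ ∧ OneSet ε τ := by
  intro ε hε
  obtain ⟨τ, hτ, P, H⟩ := h ε hε
  refine ⟨ε * τ, by positivity, P, fun p hp hlt A hA χ hχ _ => ?_⟩
  have hp1 : (1 : ℝ) ≤ p := by exact_mod_cast hp.one_le
  have hp0 : (0 : ℝ) < p := by linarith
  have hA0 : (0 : ℝ) < A.card := lt_of_le_of_lt (Real.rpow_nonneg hp0.le _) hA
  refine (H p hp hlt.le A hA χ hχ).le.trans ?_
  have h1 : (A.card : ℝ) ^ (2 - τ) = (A.card : ℝ) ^ (-τ) * (A.card : ℝ) ^ 2 := by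
    rw [← Real.rpow_natCast, ← Real.rpow_add hA0]
    congr 1
    push_cast
    ring
  rw [h1]
  refine mul_le_mul_of_nonneg_right ?_ (by positivity)
  have h2 : (p : ℝ) ^ (-(ε * τ)) = ((p : ℝ) ^ ε) ^ (-τ) := by
    rw [← Real.rpow_mul hp0.le]
    congr 1
    ring
  rw [h2]
  exact Real.rpow_le_rpow_of_nonpos (Real.rpow_pos_of_pos hp0 _) hA.le (by linarith)

lemma even_or_odd {p : ℕ} (χ : MulChar (ZMod p) ℂ) : χ (-1) = 1 ∨ χ (-1) = -1 := by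
  have h : χ (-1) * χ (-1) = 1 := by
    rw [← map_mul, neg_mul_neg, one_mul, map_one]
  exact mul_self_eq_one_iff.1 h

theorem q1_of_oneSet (h : ∀ ε : ℝ, 0 < ε → ∃ τ : ℝ, 0 < τ ∧ OneSet ε τ) : Q1 := by
  intro ε hε
  obtain ⟨τ, hτ, p₀, H⟩ := h ε hε
  refine ⟨τ / 2, by positivity, p₀ + 1, fun p hp hlt A hA χ hχ => ?_⟩
  have : NeZero p := ⟨hp.ne_zero⟩
  have hp1 : (1 : ℝ) < p := by exact_mod_cast hp.one_lt
  have hp0 : (0 : ℝ) < p := by linarith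
  have hA0 : (0 : ℝ) < A.card := lt_of_le_of_lt (Real.rpow_nonneg hp0.le _) hA
  rcases even_or_odd χ with h1 | h1
  · refine lt_of_le_of_lt (H p hp (by omega) A hA χ hχ h1) ?_
    have h2 : (A.card : ℝ) ^ (2 - τ / 2) = (A.card : ℝ) ^ (-(τ / 2)) * (A.card : ℝ) ^ 2 := by
      rw [← Real.rpow_natCast, ← Real.rpow_add hA0]
      congr 1
      push_cast
      ring
    rw [h2]
    refine mul_lt_mul_of_pos_right ?_ (by positivity)
    have hAp : (A.card : ℝ) ≤ p := by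
      have : A.card ≤ Fintype.card (ZMod p) := card_le_univ A
      rw [ZMod.card] at this
      exact_mod_cast this
    have h3 : (p : ℝ) ^ (-(τ / 2)) ≤ (A.card : ℝ) ^ (-(τ / 2)) :=
      Real.rpow_le_rpow_of_nonpos hA0 hAp (by linarith)
    exact lt_of_lt_of_le (Real.rpow_lt_rpow_of_exponent_lt hp1 (by linarith)) h3
  · have h2 : ∑ a ∈ A, ∑ b ∈ A, χ (a - b) = 0 := q_odd χ h1 A
    rw [h2, norm_zero]
    exact Real.rpow_pos_of_pos hA0 _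

theorem cut_all (h : ∀ ε : ℝ, 0 < ε → ∃ τ : ℝ, 0 < τ ∧ OneSet ε τ) :
    ∀ ε : ℝ, 0 < ε → ∃ δ : ℝ, 0 < δ ∧ Cut ε δ := by
  intro ε hε
  obtain ⟨τ, hτ, H⟩ := h (ε / 2) (by positivity)
  have h0 : 0 < min τ (2 * (ε - ε / 2)) := lt_min hτ (by linarith)
  exact ⟨min τ (2 * (ε - ε / 2)) / 2, by positivity,
    cut_of_oneSet (by positivity) (by linarith) (by linarith) H⟩

/-- the conjecture for two sets and even characters -/
theorem q1_iff_saves : Q1 ↔ ∀ ε : ℝ, 0 < ε → ∃ δ : ℝ, 0 < δ ∧ Saves EvenChar ε ε δ := by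
  constructor
  · intro h ε hε
    obtain ⟨δ, hδ, H⟩ := cut_all (oneSet_of_q1 h) ε hε
    exact ⟨δ, hδ, saves_of_cut H⟩
  · intro h
    refine q1_of_oneSet fun ε hε => ?_
    obtain ⟨δ, hδ, H⟩ := h ε hε
    exact ⟨δ, hδ, oneSet_of_saves H⟩

theorem saves_iff_oneSize (F : ∀ p : ℕ, MulChar (ZMod p) ℂ → Prop) :
    (∀ ε : ℝ, 0 < ε → ∃ δ : ℝ, 0 < δ ∧ Saves F ε ε δ) ↔
      ∀ γ : ℝ, 0 < γ → γ ≤ 1 / 2 →
        ∃ β δ : ℝ, γ < β ∧ β < 2 * γ ∧ β - γ < δ ∧ OneSize F β β δ := by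
  constructor
  · intro h γ hγ0 hγ
    rw [← saves_below_iff hγ0 hγ]
    obtain ⟨δ, hδ, H⟩ := h (γ - γ / 2) (by linarith)
    exact ⟨γ / 2, δ, by linarith, hδ, H⟩
  · intro h ε hε
    have hm0 : 0 < min ε (1 / 2) := lt_min hε (by norm_num)
    obtain ⟨c, δ, hc, hδ, H⟩ := (saves_below_iff hm0 (min_le_right _ _)).2
      (h (min ε (1 / 2)) hm0 (min_le_right _ _))
    have hle := min_le_left ε (1 / 2)
    exact ⟨δ, hδ, H.mono (α' := ε) (α₁' := ε) (δ' := δ) (by linarith) (by linarith) le_rfl⟩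

/-- products with two factors of which one does not depend on `x i` and one not on `x j` -/
def Multi (ε δ : ℝ) : Prop :=
  ∃ p₀ : ℕ, ∀ p : ℕ, p.Prime → p₀ < p → ∀ (k : ℕ) (A : Fin k → Finset (ZMod p)) (i j : Fin k),
    i ≠ j → (p : ℝ) ^ ε < ((A i).card : ℝ) → (p : ℝ) ^ ε < ((A j).card : ℝ) →
    ∀ χ : MulChar (ZMod p) ℂ, χ ≠ 1 → χ (-1) = 1 →
    ∀ f g : (Fin k → ZMod p) → ℂ, (∀ x, ‖f x‖ ≤ 1) → (∀ x, ‖g x‖ ≤ 1) →
      (∀ x b, f (Function.update x j b) = f x) → (∀ x a, g (Function.update x i a) = g x) →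
      ‖∑ x ∈ Fintype.piFinset A, f x * g x * χ (x i - x j)‖ ≤
        (p : ℝ) ^ (-δ) * ∏ l, ((A l).card : ℝ)

theorem multi_of_cut {ε δ : ℝ} (H : Cut ε δ) : Multi ε δ := by
  obtain ⟨p₀, H⟩ := H
  refine ⟨p₀, fun p hp hlt k A i j hij hAi hAj χ hχ hχ1 f g hf hg hfj hgi => ?_⟩
  have h := multi A hij (fun a b => χ (a - b)) (w := (p : ℝ) ^ (-δ) / 16)
    (fun X hX Y hY => H p hp hlt (A i) (A j) hAi hAj χ hχ hχ1 X hX Y hY) f g hf hg hfj hgi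
  refine h.trans (le_of_eq ?_)
  ring

/-- products of arbitrary characters of all differences -/
def Pairs (ε δ : ℝ) : Prop :=
  ∃ p₀ : ℕ, ∀ p : ℕ, p.Prime → p₀ < p → ∀ (k : ℕ) (A : Fin k → Finset (ZMod p))
    (ψ : Fin k → Fin k → MulChar (ZMod p) ℂ) (i j : Fin k), i < j →
    (p : ℝ) ^ ε < ((A i).card : ℝ) → (p : ℝ) ^ ε < ((A j).card : ℝ) →
    ψ i j ≠ 1 → ψ i j (-1) = 1 →
      ‖∑ x ∈ Fintype.piFinset A, ∏ e : Fin k × Fin k with e.1 < e.2,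
          ψ e.1 e.2 (x e.1 - x e.2)‖ ≤ (p : ℝ) ^ (-δ) * ∏ l, ((A l).card : ℝ)

theorem pairs_of_multi {ε δ : ℝ} (H : Multi ε δ) : Pairs ε δ := by
  classical
  obtain ⟨p₀, H⟩ := H
  refine ⟨p₀, fun p hp hlt k A ψ i j hij hAi hAj hψ hψ1 => ?_⟩
  have : NeZero p := ⟨hp.ne_zero⟩
  set P : Finset (Fin k × Fin k) := univ.filter fun e => e.1 < e.2 with hP
  set T : Finset (Fin k × Fin k) := P.filter fun e => ¬ (e.1 = j ∨ e.2 = j) with hT
  set U : Finset (Fin k × Fin k) := (P.filter fun e => (e.1 = j ∨ e.2 = j)).erase (i, j) with hU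
  have hnorm : ∀ (s : Finset (Fin k × Fin k)) (x : Fin k → ZMod p),
      ‖∏ e ∈ s, ψ e.1 e.2 (x e.1 - x e.2)‖ ≤ 1 := by
    intro s x
    rw [norm_prod]
    exact prod_le_one (fun _ _ => norm_nonneg _) fun e _ => norm_char_le _ _
  have hmem : (i, j) ∈ P.filter fun e => (e.1 = j ∨ e.2 = j) := by
    rw [mem_filter, hP, mem_filter]
    exact ⟨⟨mem_univ _, hij⟩, Or.inr rfl⟩
  have e : ∀ x : Fin k → ZMod p, ∏ e ∈ P, ψ e.1 e.2 (x e.1 - x e.2) =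
      (∏ e ∈ T, ψ e.1 e.2 (x e.1 - x e.2)) * (∏ e ∈ U, ψ e.1 e.2 (x e.1 - x e.2)) *
        ψ i j (x i - x j) := by
    intro x
    rw [← prod_filter_mul_prod_filter_not P (fun e => (e.1 = j ∨ e.2 = j)),
      ← prod_erase_mul _ _ hmem]
    ring
  simp_rw [e]
  refine H p hp hlt k A i j hij.ne hAi hAj (ψ i j) hψ hψ1 _ _ (hnorm T) (hnorm U) ?_ ?_
  · intro x b
    refine prod_congr rfl fun e he => ?_
    rw [hT, mem_filter, not_or] at he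
    rw [Function.update_of_ne he.2.1, Function.update_of_ne he.2.2]
  · intro x a
    refine prod_congr rfl fun e he => ?_
    rw [hU, mem_erase, mem_filter, hP, mem_filter] at he
    obtain ⟨h1, ⟨-, h2⟩, h3⟩ := he
    have h4 : e.1 ≠ i := by
      intro h4
      rcases h3 with h3 | h3
      · exact hij.ne (h4.symm.trans h3)
      · exact h1 (Prod.ext h4 h3)
    have h5 : e.2 ≠ i := by
      intro h5
      rcases h3 with h3 | h3
      · rw [h3, h5] at h2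
        exact absurd h2 (not_lt.2 hij.le)
      · exact hij.ne (h5.symm.trans h3)
    rw [Function.update_of_ne h4, Function.update_of_ne h5]

theorem oneSet_of_pairs {ε δ : ℝ} (H : Pairs ε δ) : OneSet ε δ := by
  classical
  obtain ⟨p₀, H⟩ := H
  refine ⟨p₀, fun p hp hlt A hA χ hχ hχ1 => ?_⟩
  have h := H p hp hlt 2 (fun _ => A) (fun _ _ => χ) 0 1 (by decide) hA hA hχ hχ1
  have hP : (univ.filter fun e : Fin 2 × Fin 2 => e.1 < e.2) = {(0, 1)} := by decide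
  rw [hP] at h
  simp only [prod_singleton, Fin.prod_univ_two] at h
  have hij : (0 : Fin 2) ≠ 1 := by decide
  rw [split_sum (fun _ => A) hij (fun x => χ (x 0 - x 1))] at h
  have hT : (Fintype.piFinset (Function.update (Function.update (fun _ : Fin 2 => A) 0 {0}) 1
      ({0} : Finset (ZMod p)))).card = 1 := by
    rw [Fintype.card_piFinset, Fin.prod_univ_two]
    simp
  simp only [Function.update_self, Function.update_of_ne hij, sum_const, hT, one_smul] at h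
  calc ‖∑ a ∈ A, ∑ b ∈ A, χ (a - b)‖ ≤ (p : ℝ) ^ (-δ) * ((A.card : ℝ) * A.card) := h
    _ = _ := by ring

theorem q1_iff_pairs : Q1 ↔ ∀ ε : ℝ, 0 < ε → ∃ δ : ℝ, 0 < δ ∧ Pairs ε δ := by
  constructor
  · intro h ε hε
    obtain ⟨δ, hδ, H⟩ := cut_all (oneSet_of_q1 h) ε hε
    exact ⟨δ, hδ, pairs_of_multi (multi_of_cut H)⟩
  · intro h
    refine q1_of_oneSet fun ε hε => ?_
    obtain ⟨δ, hδ, H⟩ := h ε hε
    exact ⟨δ, hδ, oneSet_of_pairs H⟩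

end Run7.h605.PG
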